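import Pool.Agent.Run7.h567.PD.Iface

/-!
# Piece PROJ of the project PD: twists with isomorphic symmetric squares
-/

set_option autoImplicit false

namespace Pool.Agent.Run7.h404.PD

open Matrix Run7.h567.PD Run7.h567.GO

section

variable {Γ : Type} [Group Γ] {E : Type} [Field E]

/-- the inverse character -/
def invp (χ : Γ →* E) : Γ →* E where
  toFun g := χ g⁻¹
  map_one' := by rw [inv_one, map_one]
  map_mul' g h := by rw [_root_.mul_inv_rev, map_mul, mul_comm]

theorem mul_invp (χ : Γ →* E) (g : Γ) : χ g * invp χ g = 1 := by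
  change χ g * χ g⁻¹ = 1
  rw [← map_mul, mul_inv_cancel, map_one]

theorem tw_one {n : ℕ} (ρ : MRep Γ E n) : tw 1 ρ = ρ := by
  apply MonoidHom.ext
  intro g
  change (1 : Γ →* E) g • ρ g = ρ g
  rw [MonoidHom.one_apply, one_smul]

/-- a subquotient of the same dimension is an isomorphism -/
theorem subq_iso {n : ℕ} (S T : MRep Γ E n) (h : SubQ S T) :
    ∃ Φ : Matrix (Fin n) (Fin n) E, Φ.det ≠ 0 ∧ ∀ g, Φ * S g = T g * Φ := by
  obtain ⟨U, hU, π, hs, hπ⟩ := h
  have hr : Module.finrank E (Fin n → E) ≤ Module.finrank E U := by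
    have := LinearMap.finrank_range_le π
    rwa [LinearMap.range_eq_top.2 hs, finrank_top] at this
  have hT : U = ⊤ := Submodule.eq_top_of_finrank_eq (le_antisymm (Submodule.finrank_le U) hr)
  have hi : Function.Injective π := by
    refine (LinearMap.injective_iff_surjective_of_finrank_eq_finrank ?_).2 hs
    rw [hT, finrank_top]
  let e : U ≃ₗ[E] (Fin n → E) := LinearEquiv.ofBijective π ⟨hi, hs⟩
  let L : (Fin n → E) →ₗ[E] (Fin n → E) := U.subtype ∘ₗ e.symm.toLinearMap
  have hL : Function.Injective L := by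
    intro a b hab
    exact e.symm.injective (Subtype.ext hab)
  have hLg : ∀ g v, L (S g *ᵥ v) = T g *ᵥ (L v) := by
    intro g v
    have h1 : S g *ᵥ v = e ⟨T g *ᵥ (L v), hU g _ (e.symm v).2⟩ := by
      have h2 := hπ g (e.symm v)
      have h3 : π (e.symm v) = v := e.apply_symm_apply v
      rw [h3] at h2
      exact h2.symm
    rw [h1]
    change ((e.symm (e ⟨T g *ᵥ (L v), hU g _ (e.symm v).2⟩) : U) : Fin n → E) = _
    rw [LinearEquiv.symm_apply_apply]
  refine ⟨LinearMap.toMatrix' L, ?_, fun g => ?_⟩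
  · intro hd
    obtain ⟨v, hv0, hv⟩ := Matrix.exists_mulVec_eq_zero_iff.2 hd
    rw [LinearMap.toMatrix'_mulVec] at hv
    exact hv0 (hL (by rw [hv, map_zero]))
  · apply Matrix.toLin'.injective
    apply LinearMap.ext
    intro v
    rw [Matrix.toLin'_apply, Matrix.toLin'_apply, ← Matrix.mulVec_mulVec, ← Matrix.mulVec_mulVec,
      LinearMap.toMatrix'_mulVec, LinearMap.toMatrix'_mulVec, hLg]

theorem sq_scalar (c : E) (hc : c ≠ 0) (R : Matrix (Fin 2) (Fin 2) E)
    (h : Run7.h567.PD.sq R = c • (1 : Matrix (Fin 3) (Fin 3) E)) : ∃ r : E, R = r • 1 := by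
  have h00 := congrFun (congrFun h 0) 0
  have h02 := congrFun (congrFun h 0) 2
  have h20 := congrFun (congrFun h 2) 0
  have h11 := congrFun (congrFun h 1) 1
  simp [Run7.h567.PD.sq] at h00 h02 h20 h11
  have hn : R 0 0 ≠ 0 := by
    intro h0
    apply hc
    rw [← h00, h0]
    ring
  have he : R 1 1 = R 0 0 := by
    apply mul_left_cancel₀ hn
    rw [h02, h20] at h11
    linear_combination h11 - h00
  refine ⟨R 0 0, ?_⟩
  ext i j
  fin_cases i <;> fin_cases j
  · simp
  · simpa using h02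
  · simpa using h20
  · simpa using he

end

theorem t_PROJ : S_PROJ1 → S_PROJ2 → S_SYM → S_PROJ := by
  intro P1 P2 HS Γ _ E _ _ _ V W χ χ' hV hsub
  obtain ⟨Φ, hΦ, hc⟩ := subq_iso _ _ hsub
  set c : Γ →* E := χ * invp χ' with hcdef
  have hc' : ∀ g, c g • (Φ * Run7.h567.PD.sq (V g)) = Run7.h567.PD.sq (W g) * Φ := by
    intro g
    have h1 : Φ * (χ g • Run7.h567.PD.sq (V g)) = (χ' g • Run7.h567.PD.sq (W g)) * Φ := hc g
    rw [Matrix.mul_smul, Matrix.smul_mul] at h1
    have h2 : c g = invp χ' g * χ g := by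
      rw [hcdef, MonoidHom.mul_apply, mul_comm]
    rw [h2, mul_smul, h1, smul_smul, mul_comm, mul_invp, one_smul]
  have hI : ∀ H : Subgroup Γ, H.FiniteIndex → Irred (sym2 (res V H)) := by
    intro H hH
    have h1 := HS H E (res V H) 1 (hV.res H)
    rwa [tw_one] at h1
  obtain ⟨l, hl, hq⟩ := P1 Γ E V W c Φ hI hΦ hc'
  obtain ⟨P, hP, hΦP⟩ := P2 E Φ l hl hq
  have hVdet : ∀ g, (V g).det ≠ 0 := by
    intro g h0
    have h1 : (V g).det * (V g⁻¹).det = 1 := by
      rw [← Matrix.det_mul, ← map_mul, mul_inv_cancel, map_one, Matrix.det_one]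
    rw [h0, zero_mul] at h1
    exact zero_ne_one h1
  have hcg : ∀ g, c g ≠ 0 := by
    intro g h0
    have h1 : c g * c g⁻¹ = 1 := by rw [← map_mul, mul_inv_cancel, map_one]
    rw [h0, zero_mul] at h1
    exact zero_ne_one h1
  have hex : ∀ g, ∃ r : E, W g * P = r • (P * V g) := by
    intro g
    have hA : IsUnit (P * V g).det := by
      rw [Matrix.det_mul]
      exact isUnit_iff_ne_zero.2 (mul_ne_zero hP (hVdet g))
    obtain ⟨r, hr⟩ := sq_scalar (c g) (hcg g) ((P * V g)⁻¹ * (W g * P)) (by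
      rw [sq_mul, sq_mul (W g) P, ← hΦP, ← hc' g, hΦP, Matrix.mul_smul, ← sq_mul, ← sq_mul,
        Matrix.nonsing_inv_mul _ hA, sq_one])
    refine ⟨r, ?_⟩
    have h1 : (P * V g) * ((P * V g)⁻¹ * (W g * P)) = W g * P := by
      rw [← Matrix.mul_assoc, Matrix.mul_nonsing_inv _ hA, Matrix.one_mul]
    rw [← h1, hr, Matrix.mul_smul, Matrix.mul_one]
  choose f hf using hex
  have hne : ∀ g, P * V g ≠ 0 := by
    intro g h0
    have h1 : (P * V g).det = 0 := by rw [h0]; simp
    rw [Matrix.det_mul] at h1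
    exact mul_ne_zero hP (hVdet g) h1
  have huniq : ∀ g (r s : E), r • (P * V g) = s • (P * V g) → r = s := by
    intro g r s h
    have h1 : (r - s) • (P * V g) = 0 := by rw [sub_smul, h, sub_self]
    rcases smul_eq_zero.1 h1 with h2 | h2
    · exact sub_eq_zero.1 h2
    · exact absurd h2 (hne g)
  refine ⟨⟨⟨f, ?_⟩, ?_⟩, P, hP, hf⟩
  · apply huniq 1
    rw [← hf 1, map_one, map_one, Matrix.mul_one, Matrix.one_mul, one_smul]
  · intro g h
    apply huniq (g * h)
    rw [← hf (g * h), map_mul, map_mul, Matrix.mul_assoc, hf h, Matrix.mul_smul,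
      ← Matrix.mul_assoc, hf g, Matrix.smul_mul, smul_smul, mul_comm (f h), Matrix.mul_assoc]

end Pool.Agent.Run7.h404.PD
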