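import Pool.Agent.Run7.h567.PD.Iface

/-!
# Piece PROJ2 of the project PD: similitudes of the determinant form on symmetric matrices
-/

set_option autoImplicit false

namespace Pool.Agent.Run7.h404.PD

open Matrix Run7.h567.PD

/-- an isotropic vector is a square -/
theorem isotropic {E : Type} [Field E] [IsAlgClosed E] (x z y : E) (h : x * y - z ^ 2 = 0) :
    ∃ a c : E, x = a ^ 2 ∧ z = a * c ∧ y = c ^ 2 := by
  obtain ⟨a, ha⟩ := IsAlgClosed.exists_pow_nat_eq x (n := 2) (by norm_num)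
  obtain ⟨c, hc⟩ := IsAlgClosed.exists_pow_nat_eq y (n := 2) (by norm_num)
  have h1 : (z - a * c) * (z + a * c) = 0 := by
    linear_combination -h - y * ha - a ^ 2 * hc
  rcases mul_eq_zero.1 h1 with h2 | h2
  · exact ⟨a, c, ha.symm, sub_eq_zero.1 h2, hc.symm⟩
  · exact ⟨a, -c, ha.symm, by linear_combination h2, by rw [neg_sq]; exact hc.symm⟩

theorem t_PROJ2 : S_PROJ2 := by
  intro E _ _ _ Φ l hl h
  have e (u : Fin 3 → E) : (Φ *ᵥ u) 0 * (Φ *ᵥ u) 2 - (Φ *ᵥ u) 1 ^ 2 =
      l * (u 0 * u 2 - u 1 ^ 2) := h u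
  have h0 := e ![1, 0, 0]
  have h2 := e ![0, 0, 1]
  have h1 := e ![0, 1, 0]
  have h02 := e ![1, 0, 1]
  have h01 := e ![1, 1, 0]
  have h12 := e ![0, 1, 1]
  simp only [Matrix.mulVec, dotProduct, Fin.sum_univ_three, Matrix.cons_val_zero,
    Matrix.cons_val_one, Matrix.cons_val_two, Matrix.cons_val, Matrix.head_cons,
    Matrix.tail_cons, mul_one, mul_zero, add_zero, zero_add] at h0 h1 h2 h02 h01 h12
  obtain ⟨a, c, ha, hac, hc⟩ := isotropic (Φ 0 0) (Φ 1 0) (Φ 2 0) (by linear_combination h0)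
  obtain ⟨b, d, hb, hbd, hd⟩ := isotropic (Φ 0 2) (Φ 1 2) (Φ 2 2) (by linear_combination h2)
  set x := Φ 0 1 with hx
  set z := Φ 1 1 with hz
  set y := Φ 2 1 with hy
  have hD : (a * d - b * c) ^ 2 = l := by
    rw [ha, hac, hc, hb, hbd, hd] at h02
    linear_combination h02
  have hD0 : a * d - b * c ≠ 0 := by
    intro h
    apply hl
    rw [← hD, h]
    ring
  have E1 : c ^ 2 * x - 2 * a * c * z + a ^ 2 * y = 0 := by
    rw [ha, hac, hc] at h01
    linear_combination h01 - h1
  have E2 : d ^ 2 * x - 2 * b * d * z + b ^ 2 * y = 0 := by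
    rw [hb, hbd, hd] at h12
    linear_combination h12 - h1
  obtain ⟨t, ht⟩ : ∃ t : E, (a * d - b * c) ^ 2 * t =
      -(c * d) * x + (a * d + b * c) * z - a * b * y :=
    ⟨(-(c * d) * x + (a * d + b * c) * z - a * b * y) / (a * d - b * c) ^ 2, by
      field_simp⟩
  have hD2 : (a * d - b * c) ^ 2 ≠ 0 := pow_ne_zero 2 hD0
  have Ex : x = 2 * a * b * t := by
    apply mul_left_cancel₀ hD2
    linear_combination a ^ 2 * E2 + b ^ 2 * E1 - 2 * a * b * ht
  have Ez : z = (a * d + b * c) * t := by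
    apply mul_left_cancel₀ hD2
    linear_combination a * c * E2 + b * d * E1 - (a * d + b * c) * ht
  have Ey : y = 2 * c * d * t := by
    apply mul_left_cancel₀ hD2
    linear_combination c ^ 2 * E2 + d ^ 2 * E1 - 2 * c * d * ht
  have ht2 : (t - 1) * (t + 1) = 0 := by
    apply mul_left_cancel₀ hD2
    rw [Ex, Ez, Ey] at h1
    linear_combination -h1 - hD
  rcases mul_eq_zero.1 ht2 with h3 | h3
  · have t1 : t = 1 := sub_eq_zero.1 h3
    refine ⟨!![a, b; c, d], by rw [Matrix.det_fin_two_of]; exact hD0, ?_⟩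
    ext i j
    fin_cases i <;> fin_cases j
    · simpa [Run7.h567.PD.sq] using ha
    · simpa [Run7.h567.PD.sq, t1] using Ex
    · simpa [Run7.h567.PD.sq] using hb
    · simpa [Run7.h567.PD.sq] using hac
    · simpa [Run7.h567.PD.sq, t1] using Ez
    · simpa [Run7.h567.PD.sq] using hbd
    · simpa [Run7.h567.PD.sq] using hc
    · simpa [Run7.h567.PD.sq, t1] using Ey
    · simpa [Run7.h567.PD.sq] using hd
  · have t1 : t = -1 := by linear_combination h3
    refine ⟨!![a, -b; c, -d], ?_, ?_⟩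
    · rw [Matrix.det_fin_two_of]
      intro h4
      exact hD0 (by linear_combination -h4)
    · ext i j
      fin_cases i <;> fin_cases j
      · simpa [Run7.h567.PD.sq] using ha
      · simpa [Run7.h567.PD.sq, t1] using Ex
      · simpa [Run7.h567.PD.sq] using hb
      · simpa [Run7.h567.PD.sq] using hac
      · simp [Run7.h567.PD.sq]
        rw [← hz, Ez, t1]
        ring
      · simpa [Run7.h567.PD.sq] using hbd
      · simpa [Run7.h567.PD.sq] using hc
      · simpa [Run7.h567.PD.sq, t1] using Ey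
      · simpa [Run7.h567.PD.sq] using hd

end Pool.Agent.Run7.h404.PD
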