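import Pool.Agent.Run7.h567.PD.Iface

/-!
# Piece TENS of the project PD: lines and quotient lines of a tensor product
-/

set_option autoImplicit false

namespace Pool.Agent.Run7.h404.PD

open Matrix Run7.h567.PD Run7.h567.GO

section

variable {Γ : Type} [Group Γ] {E : Type} [Field E]

/-- the inverse character -/
def invc (χ : Γ →* E) : Γ →* E where
  toFun g := χ g⁻¹
  map_one' := by rw [inv_one, map_one]
  map_mul' g h := by rw [_root_.mul_inv_rev, map_mul, mul_comm]

theorem mul_invc (χ : Γ →* E) (g : Γ) : χ g * invc χ g = 1 := by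
  change χ g * χ g⁻¹ = 1
  rw [← map_mul, mul_inv_cancel, map_one]

/-- the standard alternating matrix -/
def J : Matrix (Fin 2) (Fin 2) E := !![0, 1; -1, 0]

theorem J_mul (A : Matrix (Fin 2) (Fin 2) E) : J * A = A.adjugateᵀ * J := by
  rw [Matrix.adjugate_fin_two]
  ext i j
  fin_cases i <;> fin_cases j <;> simp [J, Matrix.mul_apply, Fin.sum_univ_two]

theorem det_J : (J : Matrix (Fin 2) (Fin 2) E).det = 1 := by
  simp [J, Matrix.det_fin_two]

theorem tr_adj (A : Matrix (Fin 2) (Fin 2) E) : Aᵀ * A.adjugateᵀ = A.det • 1 := by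
  rw [← Matrix.transpose_mul, Matrix.adjugate_mul, Matrix.transpose_smul, Matrix.transpose_one]

theorem adj_tr (A : Matrix (Fin 2) (Fin 2) E) : A.adjugateᵀ * Aᵀ = A.det • 1 := by
  rw [← Matrix.transpose_mul, Matrix.mul_adjugate, Matrix.transpose_smul, Matrix.transpose_one]

theorem tens_mulVec (V W : MRep Γ E 2) (g : Γ) (v : Fin (2 * 2) → E) (i j : Fin 2) :
    (tens V W g *ᵥ v) (finProdFinEquiv (i, j)) =
      (V g * (Matrix.of fun k l => v (finProdFinEquiv (k, l))) * (W g)ᵀ) i j := by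
  have h1 : (tens V W g *ᵥ v) (finProdFinEquiv (i, j)) =
      ∑ x : Fin 2 × Fin 2, V g i x.1 * W g j x.2 * v (finProdFinEquiv x) := by
    rw [Matrix.mulVec, dotProduct, ← Equiv.sum_comp finProdFinEquiv]
    refine Finset.sum_congr rfl fun x _ => ?_
    congr 1
    change ((V g).kronecker (W g)) (finProdFinEquiv.symm (finProdFinEquiv (i, j)))
      (finProdFinEquiv.symm (finProdFinEquiv x)) = _
    rw [Equiv.symm_apply_apply, Equiv.symm_apply_apply]
    rfl
  rw [h1, Fintype.sum_prod_type]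
  simp only [Matrix.mul_apply, Fin.sum_univ_two, Matrix.of_apply, Matrix.transpose_apply]
  ring

theorem tens_vecMul (V W : MRep Γ E 2) (g : Γ) (v : Fin (2 * 2) → E) (i j : Fin 2) :
    (v ᵥ* tens V W g) (finProdFinEquiv (i, j)) =
      ((V g)ᵀ * (Matrix.of fun k l => v (finProdFinEquiv (k, l))) * W g) i j := by
  have h1 : (v ᵥ* tens V W g) (finProdFinEquiv (i, j)) =
      ∑ x : Fin 2 × Fin 2, v (finProdFinEquiv x) * (V g x.1 i * W g x.2 j) := by
    rw [Matrix.vecMul, dotProduct, ← Equiv.sum_comp finProdFinEquiv]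
    refine Finset.sum_congr rfl fun x _ => ?_
    congr 1
    change ((V g).kronecker (W g)) (finProdFinEquiv.symm (finProdFinEquiv x))
      (finProdFinEquiv.symm (finProdFinEquiv (i, j))) = _
    rw [Equiv.symm_apply_apply, Equiv.symm_apply_apply]
    rfl
  rw [h1, Fintype.sum_prod_type]
  simp only [Matrix.mul_apply, Fin.sum_univ_two, Matrix.of_apply, Matrix.transpose_apply]
  ring

theorem rep_inv_tr (W : MRep Γ E 2) (g : Γ) : (W g)ᵀ * (W g⁻¹)ᵀ = 1 := by
  rw [← Matrix.transpose_mul, ← map_mul, inv_mul_cancel, map_one, Matrix.transpose_one]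

theorem rep_inv_tr' (W : MRep Γ E 2) (g : Γ) : (W g⁻¹)ᵀ * (W g)ᵀ = 1 := by
  rw [← Matrix.transpose_mul, ← map_mul, mul_inv_cancel, map_one, Matrix.transpose_one]

theorem of_ne_zero {v : Fin (2 * 2) → E} (hv : v ≠ 0) :
    (Matrix.of fun k l => v (finProdFinEquiv (k, l)) : Matrix (Fin 2) (Fin 2) E) ≠ 0 := by
  intro h
  apply hv
  funext x
  obtain ⟨⟨k, l⟩, rfl⟩ := finProdFinEquiv.surjective x
  exact congrFun (congrFun h k) l

theorem case1 (V W : MRep Γ E 2) (χ ψ : Γ →* E) (hV : Irred V)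
    (X : Matrix (Fin 2) (Fin 2) E) (hX : X ≠ 0)
    (h : ∀ g, χ g • (V g * X * (W g)ᵀ) = ψ g • X) : ∃ φ : Γ →* E, TwistOf V W φ := by
  have h1 : ∀ g, V g * X * (W g)ᵀ = (ψ g * invc χ g) • X := fun g => by
    rw [mul_comm, mul_smul, ← h g, smul_smul, mul_comm, mul_invc, one_smul]
  have h2 : ∀ g, V g * X = (ψ g * invc χ g) • (X * (W g⁻¹)ᵀ) := fun g => by
    rw [← Matrix.smul_mul, ← h1 g, Matrix.mul_assoc, rep_inv_tr, Matrix.mul_one]
  have hdet : X.det ≠ 0 := by
    intro hd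
    rcases hV.2 (LinearMap.range X.mulVecLin) (by
      rintro g _ ⟨w, rfl⟩
      refine ⟨(ψ g * invc χ g) • ((W g⁻¹)ᵀ *ᵥ w), ?_⟩
      simp only [Matrix.mulVecLin_apply]
      rw [Matrix.mulVec_smul, Matrix.mulVec_mulVec, Matrix.mulVec_mulVec, h2 g,
        Matrix.smul_mulVec]) with hU | hU
    · apply hX
      have h3 : X.mulVecLin = 0 := LinearMap.range_eq_bot.1 hU
      ext i j
      have := congrFun (LinearMap.congr_fun h3 (Pi.single j 1)) i
      simpa using this
    · obtain ⟨v, hv0, hv⟩ := Matrix.exists_mulVec_eq_zero_iff.2 hd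
      have hs : Function.Surjective X.mulVecLin := LinearMap.range_eq_top.1 hU
      have hi : Function.Injective X.mulVecLin := LinearMap.injective_iff_surjective.2 hs
      exact hv0 (hi (by simpa using hv))
  refine ⟨ψ * invc χ * invc (detR V), Xᵀ * J, ?_, fun g => ?_⟩
  · rw [Matrix.det_mul, Matrix.det_transpose, det_J, mul_one]
    exact hdet
  · have hA : (V g).det * invc (detR V) g = 1 := mul_invc (detR V) g
    have h3 : W g * Xᵀ * (V g)ᵀ = (ψ g * invc χ g) • Xᵀ := by
      have := congrArg Matrix.transpose (h1 g)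
      rw [Matrix.transpose_mul, Matrix.transpose_mul, Matrix.transpose_transpose,
        Matrix.transpose_smul, ← Matrix.mul_assoc] at this
      exact this
    have h4 : (ψ g * invc χ g) • (Xᵀ * J * V g) = (V g).det • (W g * (Xᵀ * J)) := by
      rw [Matrix.mul_assoc, J_mul, ← Matrix.mul_assoc, ← Matrix.smul_mul, ← Matrix.smul_mul,
        ← h3, Matrix.mul_assoc (W g * Xᵀ), tr_adj, Matrix.mul_smul, Matrix.mul_one,
        Matrix.smul_mul, Matrix.mul_assoc]
    change W g * (Xᵀ * J) = (ψ g * invc χ g * invc (detR V) g) • (Xᵀ * J * V g)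
    rw [mul_comm (ψ g * invc χ g), mul_smul, h4, smul_smul, mul_comm, hA, one_smul]

theorem case2 (V W : MRep Γ E 2) (χ ψ : Γ →* E) (hV : Irred V)
    (Y : Matrix (Fin 2) (Fin 2) E) (hY : Y ≠ 0)
    (h : ∀ g, χ g • ((V g)ᵀ * Y * W g) = ψ g • Y) : ∃ φ : Γ →* E, TwistOf V W φ := by
  have h1 : ∀ g, (V g)ᵀ * Y * W g = (ψ g * invc χ g) • Y := fun g => by
    rw [mul_comm, mul_smul, ← h g, smul_smul, mul_comm, mul_invc, one_smul]
  have h2 : ∀ g, (W g)ᵀ * (Yᵀ * V g) = (ψ g * invc χ g) • Yᵀ := fun g => by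
    have := congrArg Matrix.transpose (h1 g)
    rw [Matrix.transpose_mul, Matrix.transpose_mul, Matrix.transpose_transpose,
      Matrix.transpose_smul] at this
    exact this
  have h2' : ∀ g, Yᵀ * V g = (ψ g * invc χ g) • ((W g⁻¹)ᵀ * Yᵀ) := fun g => by
    rw [← Matrix.mul_smul, ← h2 g, ← Matrix.mul_assoc, rep_inv_tr', Matrix.one_mul]
  have hdet : Y.det ≠ 0 := by
    intro hd
    rcases hV.2 (LinearMap.ker Yᵀ.mulVecLin) (by
      intro g u hu
      rw [LinearMap.mem_ker, Matrix.mulVecLin_apply] at hu ⊢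
      rw [Matrix.mulVec_mulVec, h2' g, Matrix.smul_mulVec, ← Matrix.mulVec_mulVec, hu,
        Matrix.mulVec_zero, smul_zero]) with hU | hU
    · obtain ⟨v, hv0, hv⟩ := Matrix.exists_mulVec_eq_zero_iff.2
        (by rw [Matrix.det_transpose]; exact hd : (Yᵀ).det = 0)
      have : v ∈ LinearMap.ker Yᵀ.mulVecLin := by
        rw [LinearMap.mem_ker, Matrix.mulVecLin_apply]; exact hv
      rw [hU] at this
      exact hv0 ((Submodule.mem_bot E).1 this)
    · apply hY
      have h3 : Yᵀ.mulVecLin = 0 := LinearMap.ker_eq_top.1 hU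
      ext i j
      have := congrFun (LinearMap.congr_fun h3 (Pi.single i 1)) j
      simpa using this
  have hu : IsUnit Y.det := isUnit_iff_ne_zero.2 hdet
  refine ⟨ψ * invc χ * invc (detR V), Y⁻¹ * J, ?_, fun g => ?_⟩
  · rw [Matrix.det_mul, det_J, mul_one]
    exact (Matrix.isUnit_nonsing_inv_det Y hu).ne_zero
  · have hA : (V g).det * invc (detR V) g = 1 := mul_invc (detR V) g
    have h4 : (ψ g * invc χ g) • (Y⁻¹ * J * V g) = (V g).det • (W g * (Y⁻¹ * J)) := by
      have h5 : (V g).det • (Y * W g) = (ψ g * invc χ g) • ((V g).adjugateᵀ * Y) := by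
        have h7 : (V g).adjugateᵀ * ((V g)ᵀ * Y * W g) = (V g).det • (Y * W g) := by
          rw [← Matrix.mul_assoc, ← Matrix.mul_assoc, adj_tr, Matrix.smul_mul, Matrix.one_mul,
            Matrix.smul_mul]
        rw [← h7, h1 g, Matrix.mul_smul]
      have h6 : (V g).det • W g = (ψ g * invc χ g) • (Y⁻¹ * ((V g).adjugateᵀ * Y)) := by
        rw [← Matrix.mul_smul Y⁻¹, ← h5, Matrix.mul_smul, ← Matrix.mul_assoc,
          Matrix.nonsing_inv_mul Y hu, Matrix.one_mul]
      rw [← Matrix.smul_mul (V g).det, h6, Matrix.smul_mul]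
      congr 1
      rw [Matrix.mul_assoc, J_mul, Matrix.mul_assoc Y⁻¹, Matrix.mul_assoc _ Y,
        ← Matrix.mul_assoc Y Y⁻¹, Matrix.mul_nonsing_inv Y hu, Matrix.one_mul]
    change W g * (Y⁻¹ * J) = (ψ g * invc χ g * invc (detR V) g) • (Y⁻¹ * J * V g)
    rw [mul_comm (ψ g * invc χ g), mul_smul, h4, smul_smul, mul_comm, hA, one_smul]

end

theorem t_TENS : S_TENS := by
  rintro Γ _ E _ V W χ hV (⟨ψ, v, hv, h⟩ | ⟨ψ, v, hv, h⟩)
  · refine case1 V W χ ψ hV _ (of_ne_zero hv) fun g => ?_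
    ext i j
    have h1 := congrFun (h g) (finProdFinEquiv (i, j))
    have h2 : tw χ (tens V W) g = χ g • tens V W g := rfl
    rw [h2, Matrix.smul_mulVec, Pi.smul_apply, tens_mulVec] at h1
    exact h1
  · refine case2 V W χ ψ hV _ (of_ne_zero hv) fun g => ?_
    ext i j
    have h1 := congrFun (h g) (finProdFinEquiv (i, j))
    have h2 : tw χ (tens V W) g = χ g • tens V W g := rfl
    rw [h2, Matrix.vecMul_smul, Pi.smul_apply, tens_vecMul] at h1
    exact h1

end Pool.Agent.Run7.h404.PD
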